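import Pool.Agent.Lib.MP_a55e6f_al.Uni.Iff

set_option autoImplicit false

/-! In characteristic zero the enveloping algebra of a Lie algebra `L` is the free associative
algebra on a set `Y` exactly when `L` is the free Lie algebra on `Y`. No restriction on the
cardinals or on the universes of the field, the Lie algebra and the set of variables. -/

namespace Pool.Agent.Results.MP_a55e6f_al.FreeEnveloping

universe u v w

/-- For every field `k` of characteristic zero, every Lie algebra `L` over `k` and every set `Y`,
`U(L)` is isomorphic to `k⟨Y⟩` as a unital `k`-algebra if and only if `L` is isomorphic to the free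
Lie algebra over `k` on the same set `Y`. -/
theorem result (k : Type u) [Field k] [CharZero k] (L : Type v) [LieRing L] [LieAlgebra k L]
    (Y : Type w) :
    Nonempty (UniversalEnvelopingAlgebra k L ≃ₐ[k] FreeAlgebra k Y) ↔
      Nonempty (L ≃ₗ⁅k⁆ FreeLieAlgebra k Y) :=
  Pool.Agent.A55u.Iff.iff k L Y

end Pool.Agent.Results.MP_a55e6f_al.FreeEnveloping
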